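import Pool.Agent.helper27.SY.Spec

/-!
# Project sy (MP_5628fe_nt), module TSB
-/

set_option autoImplicit false

open Finset ArithmeticFunction

namespace Pool.Agent.SY

open Finset ArithmeticFunction Pool.Agent.SX Pool.Agent.helper85.BVP

theorem TSB (hOM : OM_stmt) (hSAD : SAD_stmt) : TSB_stmt := by
  classical
  intro n r K y h H b hn hH h1 h2 hsz hb6 hb3
  obtain ⟨hPr, -⟩ := hSAD
  have hH0 : (0 : ℝ) < (H : ℝ) * (Real.log 2 / 10) := by
    have a1 : (1 : ℝ) ≤ H := by exact_mod_cast hH
    have a2 : 0 < Real.log 2 := Real.log_pos (by norm_num)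
    positivity
  refine Finset.card_le_card_of_injOn (fun k => 30 * k + 1) ?_ ?_
  · intro k hk
    have hkG : k ∈ Gk K y h H b := hk
    have hom := hOM K y h H k b hH hkG
    unfold Gk at hkG
    rw [Finset.mem_filter, Finset.mem_Ioc] at hkG
    obtain ⟨⟨hk1, hk2⟩, hP, -, -⟩ := hkG
    have hlow : n ^ 3 < 30 * k + 1 := by omega
    have hup : 30 * k + 7 < (n + 1) ^ 3 := by omega
    have hn1 : (0 : ℝ) < (n : ℝ) + 1 := by positivity
    have hlog : ∀ x : ℕ, 0 < x → x < (n + 1) ^ 3 → Real.log (x : ℝ) ≤ 3 * Real.log ((n : ℝ) + 1) := by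
      intro x hx0 hx
      have a1 : (x : ℝ) ≤ ((n : ℝ) + 1) ^ 3 := by exact_mod_cast hx.le
      have a2 : (0 : ℝ) < x := by exact_mod_cast hx0
      have a3 := Real.log_le_log a2 a1
      rw [Real.log_pow] at a3
      exact_mod_cast a3
    have hl1 : Real.log (30 * (k : ℝ) + 1) ≤ 3 * Real.log ((n : ℝ) + 1) := by
      have := hlog (30 * k + 1) (by omega) (by omega)
      push_cast at this
      exact this
    have hl2 : Real.log (30 * (k : ℝ) + 7) ≤ 3 * Real.log ((n : ℝ) + 1) := by
      have := hlog (30 * k + 7) (by omega) hup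
      push_cast at this
      exact this
    obtain ⟨o1, o2, o3⟩ := hom
    have d1 : (Real.log (30 * (k : ℝ) + 1) + Real.log (30 * (k : ℝ) + 7)) / (H * (Real.log 2 / 10))
        ≤ 6 * Real.log ((n : ℝ) + 1) / (H * (Real.log 2 / 10)) :=
      div_le_div_of_nonneg_right (by linarith) hH0.le
    have d2 : Real.log (30 * (k : ℝ) + 1) / (H * (Real.log 2 / 10))
        ≤ 3 * Real.log ((n : ℝ) + 1) / (H * (Real.log 2 / 10)) :=
      div_le_div_of_nonneg_right hl1 hH0.le
    have d3 : Real.log (30 * (k : ℝ) + 7) / (H * (Real.log 2 / 10))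
        ≤ 3 * Real.log ((n : ℝ) + 1) / (H * (Real.log 2 / 10)) :=
      div_le_div_of_nonneg_right hl2 hH0.le
    have c1 : cardFactors (30 * k + 1) + cardFactors (30 * k + 7) < r + 1 := by
      have : ((cardFactors (30 * k + 1) : ℕ) : ℝ) + (cardFactors (30 * k + 7) : ℕ) < (r : ℝ) + 1 := by
        linarith
      exact_mod_cast this
    have c2 : cardFactors (30 * k + 1) < 5 := by
      have : ((cardFactors (30 * k + 1) : ℕ) : ℝ) < 5 := by linarith
      exact_mod_cast this
    have c3 : cardFactors (30 * k + 7) < 5 := by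
      have : ((cardFactors (30 * k + 7) : ℕ) : ℝ) < 5 := by linarith
      exact_mod_cast this
    have e7 : 30 * k + 1 + 6 = 30 * k + 7 := by ring
    show 30 * k + 1 ∈ T r n
    unfold T
    rw [Finset.mem_filter, Finset.mem_Ioo, e7]
    refine ⟨⟨hlow, by omega⟩, hup, by omega, by omega, by omega, ?_, ?_⟩
    · intro p hp hpm
      have h7 : 7 ≤ p := by
        by_contra hlt7
        push Not at hlt7
        have hp2 := hp.two_le
        clear o1 o2 o3 d1 d2 d3 hb6 hb3 hl1 hl2 hsz h1 h2 hlow hup hP hk
        rcases (Nat.Prime.dvd_mul hp).1 hpm with h2 | h2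
        · interval_cases p
          · omega
          · omega
          · revert hp; decide
          · omega
          · revert hp; decide
        · interval_cases p
          · omega
          · omega
          · revert hp; decide
          · omega
          · revert hp; decide
      refine ⟨h7, ?_⟩
      have h10 : 2 ^ h ≤ p ^ 10 := by
        by_contra hcon
        push Not at hcon
        exact hP p ((hPr h p).2 ⟨hp, h7, hcon⟩) hpm
      have h11 : n ^ 10 < (p ^ 6) ^ 10 := by
        calc n ^ 10 < 2 ^ (6 * h) := hsz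
          _ = (2 ^ h) ^ 6 := by rw [← pow_mul, mul_comm]
          _ ≤ (p ^ 10) ^ 6 := Nat.pow_le_pow_left h10 6
          _ = (p ^ 6) ^ 10 := by rw [← pow_mul, ← pow_mul]
      exact lt_of_pow_lt_pow_left₀ 10 (Nat.zero_le _) h11
    · intro q hq1 hq2 hq
      have h2' : ¬ 2 ∣ q := fun hd => by
        have := (Nat.prime_dvd_prime_iff_eq Nat.prime_two hq).1 hd
        omega
      have h3' : ¬ 3 ∣ q := fun hd => by
        have := (Nat.prime_dvd_prime_iff_eq Nat.prime_three hq).1 hd
        omega
      have h5' : ¬ 5 ∣ q := fun hd => by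
        have := (Nat.prime_dvd_prime_iff_eq Nat.prime_five hq).1 hd
        omega
      clear o1 o2 o3 d1 d2 d3 hb6 hb3 hl1 hl2 hsz h1 h2 hlow hup hP hk
      have hcase : q = 30 * k + 2 ∨ q = 30 * k + 3 ∨ q = 30 * k + 4 ∨ q = 30 * k + 5 ∨
          q = 30 * k + 6 := by omega
      rcases hcase with h | h | h | h | h
      · exact h2' (by omega)
      · exact h3' (by omega)
      · exact h2' (by omega)
      · exact h5' (by omega)
      · exact h2' (by omega)
  · intro a _ b' _ hab
    have : 30 * a + 1 = 30 * b' + 1 := hab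
    omega

end Pool.Agent.SY
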